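import Pool.Agent.R737.PK.Stm

/-!
# Peak polynomials: PIECE A
-/

set_option autoImplicit false

open Polynomial

namespace Pool.Agent.R737.PK

theorem KK_succ (k i : ℕ) : KK (k + 1) i = KK k i * |2 * ((k + 1 : ℕ) : ℝ) - 2 * i - 1| := by
  unfold KK
  rw [Finset.prod_range_succ]

theorem KK_pos (k i : ℕ) : 0 < KK k i := by
  unfold KK
  apply Finset.prod_pos
  intro l _
  rw [abs_pos]
  intro h
  have h1 : (2 * (l : ℤ) - 2 * i - 1 : ℤ) = 0 := by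
    have : ((2 * (l : ℤ) - 2 * i - 1 : ℤ) : ℝ) = 0 := by push_cast; exact h
    exact_mod_cast this
  omega

theorem KK_ratio (q : ℕ) : 3 * KK (q + 3) 0 = (2 * (q : ℝ) + 5) * KK (q + 3) 1 ∧
    5 * KK (q + 3) 1 = (2 * (q : ℝ) + 3) * KK (q + 3) 2 ∧
    7 * KK (q + 3) 2 = (2 * (q : ℝ) + 1) * KK (q + 3) 3 := by
  induction q with
  | zero =>
    have h0 : KK 3 0 = 15 := by
      unfold KK
      simp only [Finset.prod_range_succ, Finset.prod_range_zero]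
      norm_num [abs_of_pos, abs_of_neg]
    have h1 : KK 3 1 = 9 := by
      unfold KK
      simp only [Finset.prod_range_succ, Finset.prod_range_zero]
      norm_num [abs_of_pos, abs_of_neg]
    have h2 : KK 3 2 = 15 := by
      unfold KK
      simp only [Finset.prod_range_succ, Finset.prod_range_zero]
      norm_num [abs_of_pos, abs_of_neg]
    have h3 : KK 3 3 = 105 := by
      unfold KK
      simp only [Finset.prod_range_succ, Finset.prod_range_zero]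
      norm_num [abs_of_pos, abs_of_neg]
    simp only [Nat.zero_add, h0, h1, h2, h3]
    norm_num
  | succ q ih =>
    obtain ⟨i1, i2, i3⟩ := ih
    have e : q + 1 + 3 = q + 3 + 1 := by ring
    have hq : (0 : ℝ) ≤ q := Nat.cast_nonneg q
    have a0 : |2 * ((q + 3 + 1 : ℕ) : ℝ) - 2 * ((0 : ℕ) : ℝ) - 1| = 2 * (q : ℝ) + 7 := by
      push_cast
      rw [abs_of_pos (by linarith)]
      ring
    have a1 : |2 * ((q + 3 + 1 : ℕ) : ℝ) - 2 * ((1 : ℕ) : ℝ) - 1| = 2 * (q : ℝ) + 5 := by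
      push_cast
      rw [abs_of_pos (by linarith)]
      ring
    have a2 : |2 * ((q + 3 + 1 : ℕ) : ℝ) - 2 * ((2 : ℕ) : ℝ) - 1| = 2 * (q : ℝ) + 3 := by
      push_cast
      rw [abs_of_pos (by linarith)]
      ring
    have a3 : |2 * ((q + 3 + 1 : ℕ) : ℝ) - 2 * ((3 : ℕ) : ℝ) - 1| = 2 * (q : ℝ) + 1 := by
      push_cast
      rw [abs_of_pos (by linarith)]
      ring
    rw [e, KK_succ (q + 3) 0, KK_succ (q + 3) 1, KK_succ (q + 3) 2, KK_succ (q + 3) 3, a0, a1, a2,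
      a3]
    push_cast
    refine ⟨?_, ?_, ?_⟩
    · linear_combination (2 * (q : ℝ) + 7) * i1
    · linear_combination (2 * (q : ℝ) + 5) * i2
    · linear_combination (2 * (q : ℝ) + 3) * i3

theorem ineq_key (a q w2 w3 w4 : ℝ) (ha : 0 ≤ a) (hq : 0 ≤ q) (hw2 : 1 / 5 ≤ w2)
    (hw2' : w2 ≤ 5 / 24) (hw3 : 1 / 5 ≤ w3) (hw4 : 1 / 5 ≤ w4) (hw4' : w4 ≤ 5 / 24) :
    a * (a + 1) * w4 * ((a + 4) * (a + 5) * w2) * (21 * (2 * q + 7) ^ 2) <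
      ((a + 2) * (a + 3) * w3) ^ 2 * (25 * ((2 * q + 9) * (2 * q + 5))) := by
  have h1 : a * (a + 1) * ((a + 4) * (a + 5)) ≤ ((a + 2) * (a + 3)) ^ 2 := by nlinarith [mul_nonneg ha ha]
  have h2 : w4 * w2 ≤ (5 / 24) ^ 2 := by nlinarith
  have h3 : (1 / 5) ^ 2 ≤ w3 ^ 2 := by nlinarith
  have h4 : a * (a + 1) * w4 * ((a + 4) * (a + 5) * w2) ≤ ((a + 2) * (a + 3)) ^ 2 * (5 / 24) ^ 2 := by
    have h5 : a * (a + 1) * w4 * ((a + 4) * (a + 5) * w2) =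
        (a * (a + 1) * ((a + 4) * (a + 5))) * (w4 * w2) := by ring
    rw [h5]
    exact mul_le_mul h1 h2 (by positivity) (by positivity)
  have h6 : ((a + 2) * (a + 3)) ^ 2 * (1 / 5) ^ 2 ≤ ((a + 2) * (a + 3) * w3) ^ 2 := by
    rw [mul_pow ((a + 2) * (a + 3)) w3]
    exact mul_le_mul_of_nonneg_left h3 (by positivity)
  have h7 : (5 / 24 : ℝ) ^ 2 * (21 * (2 * q + 7) ^ 2) <
      (1 / 5) ^ 2 * (25 * ((2 * q + 9) * (2 * q + 5))) := by nlinarith [mul_nonneg hq hq]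
  have hpos : 0 < ((a + 2) * (a + 3)) ^ 2 := by positivity
  calc a * (a + 1) * w4 * ((a + 4) * (a + 5) * w2) * (21 * (2 * q + 7) ^ 2)
      ≤ ((a + 2) * (a + 3)) ^ 2 * (5 / 24) ^ 2 * (21 * (2 * q + 7) ^ 2) :=
        mul_le_mul_of_nonneg_right h4 (by positivity)
    _ = ((a + 2) * (a + 3)) ^ 2 * ((5 / 24) ^ 2 * (21 * (2 * q + 7) ^ 2)) := by ring
    _ < ((a + 2) * (a + 3)) ^ 2 * ((1 / 5) ^ 2 * (25 * ((2 * q + 9) * (2 * q + 5)))) :=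
        mul_lt_mul_of_pos_left h7 hpos
    _ = ((a + 2) * (a + 3)) ^ 2 * (1 / 5) ^ 2 * (25 * ((2 * q + 9) * (2 * q + 5))) := by ring
    _ ≤ ((a + 2) * (a + 3) * w3) ^ 2 * (25 * ((2 * q + 9) * (2 * q + 5))) :=
        mul_le_mul_of_nonneg_right h6 (by positivity)

theorem final_ineq (K0 K1 K2 K3 b1 b2 b3 b4 a q w2 w3 w4 : ℝ) (p0 : 0 < K0) (p1 : 0 < K1)
    (p2 : 0 < K2) (p3 : 0 < K3) (hb4 : 0 < b4) (ha : 0 < a) (hq : 0 ≤ q) (hw2 : 1 / 5 ≤ w2)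
    (hw2' : w2 ≤ 5 / 24) (hw3 : 1 / 5 ≤ w3) (hw4 : 1 / 5 ≤ w4) (hw4' : w4 ≤ 5 / 24)
    (r1 : 3 * K0 = (2 * q + 9) * K1) (r2 : 5 * K1 = (2 * q + 7) * K2)
    (r3 : 7 * K2 = (2 * q + 5) * K3)
    (t3 : b3 = b4 * (a * (a + 1) * w4)) (t2 : b2 = b3 * ((a + 2) * (a + 3) * w3))
    (t1 : b1 = b2 * ((a + 4) * (a + 5) * w2))
    (key : (2 * b2 / K1) ^ 3 * (8 * b4 / K3) ≤ b1 / K0 * (4 * b3 / K2) ^ 3) : False := by
  have hkey := ineq_key a q w2 w3 w4 ha.le hq hw2 hw2' hw3 hw4 hw4'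
  have w2p : 0 < w2 := by linarith
  have w3p : 0 < w3 := by linarith
  have w4p : 0 < w4 := by linarith
  have R4p : 0 < a * (a + 1) * w4 := by positivity
  have R3p : 0 < (a + 2) * (a + 3) * w3 := by positivity
  generalize a * (a + 1) * w4 = R4 at *
  generalize (a + 2) * (a + 3) * w3 = R3 at *
  generalize (a + 4) * (a + 5) * w2 = R2 at *
  have k1 : b2 ^ 3 * b4 * K0 * K2 ^ 3 ≤ b1 * b3 ^ 3 * K1 ^ 3 * K3 := by
    rw [div_pow, div_pow, div_mul_div_comm, div_mul_div_comm,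
      div_le_div_iff₀ (by positivity) (by positivity)] at key
    have e7 : (2 * b2) ^ 3 * (8 * b4) * (K0 * K2 ^ 3) = 64 * (b2 ^ 3 * b4 * K0 * K2 ^ 3) := by ring
    have e8 : b1 * (4 * b3) ^ 3 * (K1 ^ 3 * K3) = 64 * (b1 * b3 ^ 3 * K1 ^ 3 * K3) := by ring
    rw [e7, e8] at key
    linarith
  have k2 : (b2 ^ 3 * b4 * (25 * ((2 * q + 9) * (2 * q + 5)))) * (K1 * K2 ^ 3) ≤
      (b1 * b3 ^ 3 * (21 * (2 * q + 7) ^ 2)) * (K1 * K2 ^ 3) := by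
    have e1 : (b2 ^ 3 * b4 * (25 * ((2 * q + 9) * (2 * q + 5)))) * (K1 * K2 ^ 3) =
        b2 ^ 3 * b4 * K0 * K2 ^ 3 * (75 * (2 * q + 5)) := by
      linear_combination (-(b2 ^ 3 * b4 * 25 * (2 * q + 5) * K2 ^ 3)) * r1
    have e2' : ((2 * q + 7) * K2) ^ 2 = 25 * K1 ^ 2 := by
      rw [← r2]; ring
    have e2 : (b1 * b3 ^ 3 * (21 * (2 * q + 7) ^ 2)) * (K1 * K2 ^ 3) =
        b1 * b3 ^ 3 * K1 ^ 3 * K3 * (75 * (2 * q + 5)) := by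
      linear_combination (21 * b1 * b3 ^ 3 * K1 * K2) * e2' + (75 * b1 * b3 ^ 3 * K1 ^ 3) * r3
    rw [e1, e2]
    exact mul_le_mul_of_nonneg_right k1 (by positivity)
  have k3 := le_of_mul_le_mul_right k2 (by positivity)
  rw [t1, t2, t3] at k3
  have k4 : (b4 ^ 4 * R4 ^ 3 * R3) * (R3 ^ 2 * (25 * ((2 * q + 9) * (2 * q + 5)))) ≤
      (b4 ^ 4 * R4 ^ 3 * R3) * (R4 * R2 * (21 * (2 * q + 7) ^ 2)) := by
    calc _ = (b4 * R4 * R3) ^ 3 * b4 * (25 * ((2 * q + 9) * (2 * q + 5))) := by ring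
      _ ≤ _ := k3
      _ = _ := by ring
  have k5 := le_of_mul_le_mul_left k4 (by positivity)
  exact absurd hkey (not_lt.2 k5)

theorem stA (h1 : StVal) (h2 : StZ) (h3 : StRR3) : StA := by
  intro j₀ P₀ ρ₀ hj hrep hgood k hk hreal
  obtain ⟨v1, v2, v3, v4, v5, v6, v7, v8⟩ := h1 j₀ P₀ ρ₀ hj hrep hgood
  obtain ⟨z1, z2⟩ := h2 j₀ P₀ ρ₀ hj hrep hgood k (by omega)
  obtain ⟨q, rfl⟩ : ∃ q, k = q + 5 := ⟨k - 5, by omega⟩
  have e0 : |(chain P₀ j₀ (q + 5)).eval ((j₀ : ℝ) + 2 * ((q + 5 : ℕ) : ℝ) - 1)| =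
      bet P₀ j₀ (q + 4) := by
    have h := v6 (q + 5) 0 (by omega)
    have hx : (j₀ : ℝ) + 2 * ((q + 5 : ℕ) : ℝ) - 1 - 2 * ((0 : ℕ) : ℝ) =
        (j₀ : ℝ) + 2 * ((q + 5 : ℕ) : ℝ) - 1 := by push_cast; ring
    rw [hx] at h
    rw [h]
    have hs : q + 5 - 0 - 1 = q + 4 := by omega
    rw [hs]
    norm_num
    exact (v2 _).le
  have e1 : |(chain P₀ j₀ (q + 5)).eval ((j₀ : ℝ) + 2 * ((q + 5 : ℕ) : ℝ) - 3)| =
      2 * bet P₀ j₀ (q + 3) := by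
    have h := v6 (q + 5) 1 (by omega)
    have hx : (j₀ : ℝ) + 2 * ((q + 5 : ℕ) : ℝ) - 1 - 2 * ((1 : ℕ) : ℝ) =
        (j₀ : ℝ) + 2 * ((q + 5 : ℕ) : ℝ) - 3 := by push_cast; ring
    rw [hx] at h
    rw [h]
    have hs : q + 5 - 1 - 1 = q + 3 := by omega
    rw [hs]
    norm_num
    exact (v2 _).le
  have e2 : |(chain P₀ j₀ (q + 5)).eval ((j₀ : ℝ) + 2 * ((q + 5 : ℕ) : ℝ) - 5)| =
      4 * bet P₀ j₀ (q + 2) := by
    have h := v6 (q + 5) 2 (by omega)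
    have hx : (j₀ : ℝ) + 2 * ((q + 5 : ℕ) : ℝ) - 1 - 2 * ((2 : ℕ) : ℝ) =
        (j₀ : ℝ) + 2 * ((q + 5 : ℕ) : ℝ) - 5 := by push_cast; ring
    rw [hx] at h
    rw [h]
    have hs : q + 5 - 2 - 1 = q + 2 := by omega
    rw [hs]
    norm_num
    exact (v2 _).le
  have e3 : |(chain P₀ j₀ (q + 5)).eval ((j₀ : ℝ) + 2 * ((q + 5 : ℕ) : ℝ) - 7)| =
      8 * bet P₀ j₀ (q + 1) := by
    have h := v6 (q + 5) 3 (by omega)
    have hx : (j₀ : ℝ) + 2 * ((q + 5 : ℕ) : ℝ) - 1 - 2 * ((3 : ℕ) : ℝ) =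
        (j₀ : ℝ) + 2 * ((q + 5 : ℕ) : ℝ) - 7 := by push_cast; ring
    rw [hx] at h
    rw [h]
    have hs : q + 5 - 3 - 1 = q + 1 := by omega
    rw [hs]
    norm_num
    exact (v2 _).le
  have hp0 : chain P₀ j₀ (q + 5) ≠ 0 := by
    intro h
    rw [h] at e0
    have := v2 (q + 4)
    simp at e0
    linarith
  have hz : ∀ i : ℕ, i ≤ q + 5 →
      (chain P₀ j₀ (q + 5)).eval ((j₀ : ℝ) + 2 * ((q + 5 : ℕ) : ℝ) - 2 * i) = 0 := by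
    intro i hi
    have h := v7 (q + 5) (q + 5 - i) (by omega)
    have hx : (j₀ : ℝ) + 2 * ((q + 5 - i : ℕ) : ℝ) =
        (j₀ : ℝ) + 2 * ((q + 5 : ℕ) : ℝ) - 2 * i := by
      rw [Nat.cast_sub hi]
      ring
    rwa [hx] at h
  have key := h3 (chain P₀ j₀ (q + 5)) ((j₀ : ℝ) + 2 * ((q + 5 : ℕ) : ℝ)) (q + 5) (by omega) hp0
    hreal hz z1 z2
  rw [e0, e1, e2, e3] at key
  obtain ⟨r1, r2, r3⟩ := KK_ratio (q + 2)
  have hK : q + 2 + 3 = q + 5 := by ring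
  rw [hK] at r1 r2 r3
  push_cast at r1 r2 r3
  have hj0 : (1 : ℝ) ≤ j₀ := by exact_mod_cast hj
  have hq : (0 : ℝ) ≤ q := Nat.cast_nonneg q
  have s3 := v3 (q + 1)
  have s2 := v3 (q + 2)
  have s1 := v3 (q + 3)
  push_cast at s1 s2 s3
  refine final_ineq (KK (q + 5) 0) (KK (q + 5) 1) (KK (q + 5) 2) (KK (q + 5) 3)
    (bet P₀ j₀ (q + 4)) (bet P₀ j₀ (q + 3)) (bet P₀ j₀ (q + 2)) (bet P₀ j₀ (q + 1))
    ((j₀ : ℝ) + 2 * q + 4) q (ww (chainR ρ₀ j₀ (q + 3))) (ww (chainR ρ₀ j₀ (q + 2)))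
    (ww (chainR ρ₀ j₀ (q + 1))) (KK_pos _ _) (KK_pos _ _) (KK_pos _ _) (KK_pos _ _) (v2 _)
    (by linarith) hq (v5 (q + 2)) (v4 (q + 3)).2 (v5 (q + 1)) (v5 q) (v4 (q + 1)).2
    (by linarith) (by linarith) (by linarith) ?_ ?_ ?_ key
  · have h : bet P₀ j₀ (q + 2) = _ := s3
    rw [h]; ring
  · have h : bet P₀ j₀ (q + 3) = _ := s2
    rw [h]; ring
  · have h : bet P₀ j₀ (q + 4) = _ := s1
    rw [h]; ring

end Pool.Agent.R737.PK
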